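import Pool.Agent.Work.MP_db9399_da.Pre2

/-!
# MP_db9399, DENSE-ALL, phase 2: CNH, candidates for exchanges (helper94)
-/

set_option autoImplicit false

namespace Pool.Agent.Work.MP_db9399_da.helper94

open Finset Classical
open Pool.Agent.Work.MP_db9399_all (nb)
open Pool.Agent.Work.MP_db9399_da
open Pool.Agent.Work.MP_db9399_da.helper82 (alc bad_cell cand)
open Pool.Agent.Work.MP_db9399_dp (zb)
open Pool.Agent.Work.MP_db9399_dp.helper82 (Cl clv mem_zb mem_nb' nb_thin_V0 clv_eq card_Cl)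

universe u

section cnt
variable {V : Type u} [Fintype V] {M : ℕ}

theorem SC_iff (P : Pcs V M) (v x : V) (hB : P.ty (P.pc v) = Ty.B) :
    SC P v x ↔ clv P x = clv P v := by
  have hK : P.ty (P.pc v) ≠ Ty.K := by rw [hB]; decide
  unfold SC
  rw [clv_eq]
  constructor
  · rintro ⟨_, h1, h2⟩
    refine ⟨h1.symm, ?_⟩
    have h3 : P.ty (P.pc x) ≠ Ty.K := by rw [← h1]; exact hK
    unfold clv
    rw [if_neg h3, if_neg hK]
    exact h2.symm
  · rintro ⟨h1, h2⟩
    have h1' : P.pc x = P.pc v := h1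
    have h3 : P.ty (P.pc x) ≠ Ty.K := by rw [h1']; exact hK
    refine ⟨hB, h1'.symm, ?_⟩
    unfold clv at h2
    rw [if_neg h3, if_neg hK] at h2
    exact h2.symm

/-- candidates outside the side of `v` -/
theorem cnt_B {K ζ ε1 π κ : ℝ} (G : SimpleGraph V) (d : ℕ) (P : Pcs V M) (A : Pal)
    (hPD : PartD K ζ ε1 G d P) (hA : PalP A d π κ) (z : V) (hz : z ∈ P.V0) (v : V) (f : ℕ)
    (tz : V → ℕ) (hinj : Set.InjOn tz (nb G z : Set V)) (hB : P.ty (P.pc v) = Ty.B) :
    49 / 100 * (((nb G z).filter (fun x => x ∉ P.V0 ∧ ¬ SC P v x)).card : ℝ) ≤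
      (((nb G z).filter (fun x => x ∉ P.V0 ∧ alc P A x f ∧ alc P A v (tz x) ∧
        ¬ SC P v x)).card : ℝ) + (2 * M * ζ ^ 2 * d + 2 * κ * d) := by
  have hth := nb_thin_V0 G P z hz
  have hK : P.ty (P.pc v) ≠ Ty.K := by rw [hB]; decide
  obtain ⟨R, hR⟩ : ∃ R : Finset V, R = (nb G z).filter (fun x => x ∉ P.V0 ∧ ¬ SC P v x) :=
    ⟨_, rfl⟩
  obtain ⟨Gd, hGd⟩ : ∃ Gd : Finset V, Gd = (nb G z).filter (fun x => x ∉ P.V0 ∧ alc P A x f ∧
    alc P A v (tz x) ∧ ¬ SC P v x) := ⟨_, rfl⟩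
  rw [← hR, ← hGd]
  obtain ⟨B1, hB1⟩ : ∃ B1 : Finset V, B1 = R.filter (fun x => ¬ alc P A x f) := ⟨_, rfl⟩
  obtain ⟨B2, hB2⟩ : ∃ B2 : Finset V, B2 = (nb G z).filter (fun x => ¬ alc P A v (tz x)) :=
    ⟨_, rfl⟩
  have h1 : R ⊆ (B1 ∪ B2) ∪ Gd := by
    intro x hx
    have hx' := hx
    rw [hR, mem_filter] at hx'
    rw [mem_union, mem_union, hB1, hB2, hGd, mem_filter, mem_filter, mem_filter]
    tauto
  have h2 := (card_le_card h1).trans ((card_union_le _ _).trans
    (Nat.add_le_add_right (card_union_le _ _) _))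
  have h3 : (R.card : ℝ) ≤ B1.card + B2.card + Gd.card := by exact_mod_cast h2
  -- B2
  have h10 : (B2.card : ℝ) ≤ 2 * κ * d := by
    have e1 : B2.card ≤ (A.Q (P.pt v)).card := by
      apply card_le_card_of_injOn tz
      · intro x hx
        rw [mem_coe, hB2, mem_filter] at hx
        rw [mem_coe]
        have hx2 := hx.2
        unfold alc at hx2
        rw [if_neg hK] at hx2
        push Not at hx2
        exact hx2
      · intro x hx x' hx' he
        rw [mem_coe, hB2, mem_filter] at hx hx'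
        exact hinj (mem_coe.2 hx.1) (mem_coe.2 hx'.1) he
    have e2 : (B2.card : ℝ) ≤ ((A.Q (P.pt v)).card : ℝ) := by exact_mod_cast e1
    exact e2.trans (hA.Qc (P.pt v)).2
  -- cells
  have hcell : ∀ X : Cl M, ((((zb (thin G P) P.V0 (clv P) z X).filter
      (fun x => ¬ SC P v x)).filter (fun x => ¬ alc P A x f)).card : ℝ) ≤
      51 / 100 * (((zb (thin G P) P.V0 (clv P) z X).filter (fun x => ¬ SC P v x)).card : ℝ) +
        ζ ^ 2 * d := by
    intro X
    by_cases hX : X = clv P v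
    · have e1 : (zb (thin G P) P.V0 (clv P) z X).filter (fun x => ¬ SC P v x) = ∅ := by
        rw [filter_eq_empty_iff]
        intro x hx
        rw [mem_zb] at hx
        rw [not_not, SC_iff P v x hB, hx.2.2, hX]
      rw [e1]
      simp only [filter_empty, card_empty, Nat.cast_zero, mul_zero, zero_add]
      positivity
    · have e1 : (zb (thin G P) P.V0 (clv P) z X).filter (fun x => ¬ SC P v x) =
          zb (thin G P) P.V0 (clv P) z X := by
        rw [filter_eq_self]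
        intro x hx
        rw [mem_zb] at hx
        rw [SC_iff P v x hB, hx.2.2]
        exact hX
      rw [e1]
      exact bad_cell G d P A hPD hA z hz f X
  have hRX : ∀ X : Cl M, R.filter (fun x => clv P x = X) =
      (zb (thin G P) P.V0 (clv P) z X).filter (fun x => ¬ SC P v x) := by
    intro X
    ext x
    rw [mem_filter, mem_filter, hR, mem_filter, mem_zb, ← mem_nb', hth]
    tauto
  have hRs : (R.card : ℝ) = ∑ X : Cl M,
      (((zb (thin G P) P.V0 (clv P) z X).filter (fun x => ¬ SC P v x)).card : ℝ) := by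
    rw [card_eq_sum_card_fiberwise (s := R) (f := clv P) (t := univ)
      (fun _ _ => mem_coe.2 (mem_univ _))]
    push_cast
    exact sum_congr rfl fun X _ => by rw [hRX X]
  have hB1s : (B1.card : ℝ) = ∑ X : Cl M, ((((zb (thin G P) P.V0 (clv P) z X).filter
      (fun x => ¬ SC P v x)).filter (fun x => ¬ alc P A x f)).card : ℝ) := by
    rw [card_eq_sum_card_fiberwise (s := B1) (f := clv P) (t := univ)
      (fun _ _ => mem_coe.2 (mem_univ _))]
    push_cast
    refine sum_congr rfl fun X _ => ?_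
    rw [← hRX X]
    congr 2
    ext x
    rw [hB1, mem_filter, mem_filter, mem_filter, mem_filter]
    tauto
  have h4 : (B1.card : ℝ) ≤ 51 / 100 * R.card + 2 * M * ζ ^ 2 * d := by
    rw [hB1s, hRs]
    refine (sum_le_sum fun X _ => hcell X).trans ?_
    rw [sum_add_distrib, ← mul_sum, sum_const, card_univ, card_Cl, nsmul_eq_mul]
    push_cast
    linarith
  linarith

end cnt

/-- CNH -/
theorem stmt_CNH : Stmt_CNH.{u} := by
  intro C g ρ K π κ ε ε2 σ τ ζ θ M k k2 K5 L V _ G d P A X Ss t c Sp cx z v f tz hz hz0 hv0 hinj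
  have nu := cx.nu
  have hσ0 := nu.σ0
  have hσ1 := nu.σ1
  have hζ0 := nu.ζ0
  have hθ0 := nu.θ0
  have hκ0 := nu.κ0
  have hε0 := nu.ε0
  have hL1 : (1 : ℝ) ≤ L := by exact_mod_cast nu.L1
  have hML : (M : ℝ) ≤ L := by exact_mod_cast nu.ML
  have hLL : (1 : ℝ) ≤ (L : ℝ) ^ 2 := one_le_pow₀ hL1
  have hLL2 : (L : ℝ) ≤ (L : ℝ) ^ 2 := by nlinarith only [hL1]
  have hκ1 : κ ≤ σ / 1000 := nu.κσ
  have hζs : 1000000 * ζ ≤ σ := by
    have h1 := nu.ζL
    have h2 : 10 ^ 6 * ζ ≤ 10 ^ 6 * (L : ℝ) ^ 2 * ζ := by nlinarith only [hLL, hζ0]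
    linarith
  have hζ1 : ζ ≤ 1 / 100000000 := by linarith
  have hζLs : 1000000 * (L * ζ) ≤ σ := by
    have h1 := nu.ζL
    have h2 : 10 ^ 6 * (L * ζ) ≤ 10 ^ 6 * (L : ℝ) ^ 2 * ζ := by nlinarith only [hLL2, hζ0]
    linarith
  have hMζ : 2 * M * ζ ^ 2 ≤ 1 / 1000 * σ := by
    have h1 : (M : ℝ) * ζ ≤ L * ζ := mul_le_mul_of_nonneg_right hML hζ0.le
    have h2 : 2 * M * ζ ^ 2 = 2 * ζ * (M * ζ) := by ring
    rw [h2]
    have h3 : 2 * ζ * (M * ζ) ≤ 2 * ζ * (L * ζ) := mul_le_mul_of_nonneg_left h1 (by positivity)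
    have h4 : 0 ≤ L * ζ := by positivity
    nlinarith only [h3, h4, hζ1, hζ0, hζLs, hσ0]
  have hθs : θ ≤ 1 / 1000 * σ := by
    have h1 := nu.θL
    have h2 : θ ≤ 10 ^ 6 * (L : ℝ) ^ 2 * θ := by nlinarith only [hLL, hθ0]
    have h3 : ζ ^ 2 * σ ≤ 1 / 1000 * σ := by
      apply mul_le_mul_of_nonneg_right _ hσ0.le
      nlinarith only [hζ0, hζ1]
    linarith
  have hd0 : (0 : ℝ) ≤ d := Nat.cast_nonneg d
  have hτ1 : τ ≤ 1 := by
    have h1 := nu.τL
    have h2 : τ ≤ 10 ^ 6 * (L : ℝ) ^ 2 * τ := by nlinarith only [hLL, nu.τ0]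
    linarith
  have hε1 : ε ≤ 1 := by
    have h1 := nu.ετ
    linarith
  have hdbig : (100000000000000 : ℝ) ≤ d := by
    have h1 := nu.dL
    have h2 : ε * θ * ζ ^ 2 * σ * κ * d ≤ 1 / 10 ^ 16 * d := by
      have h3 : ζ ^ 2 ≤ 1 / 10 ^ 16 := by nlinarith only [hζ0, hζ1]
      have h4 : ε * θ ≤ 1 := by
        have : θ ≤ 1 := by linarith
        nlinarith only [this, hε1, hε0, hθ0]
      have h5 : σ * κ ≤ 1 := by
        have : κ ≤ 1 := by linarith
        nlinarith only [this, hσ1, hσ0, hκ0]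
      have h6 : ε * θ * ζ ^ 2 ≤ 1 * (1 / 10 ^ 16) :=
        mul_le_mul h4 h3 (by positivity) (by norm_num)
      have h7 : ε * θ * ζ ^ 2 * (σ * κ) ≤ 1 * (1 / 10 ^ 16) * 1 :=
        mul_le_mul h6 h5 (by positivity) (by norm_num)
      have h8 := mul_le_mul_of_nonneg_right h7 hd0
      nlinarith only [h8]
    have h3 : (1 : ℝ) ≤ (L : ℝ) ^ 4 := one_le_pow₀ hL1
    nlinarith only [h1, h2, h3]
  by_cases hB : P.ty (P.pc v) = Ty.B
  · have hc := cnt_B G d P A cx.pd cx.pal z hz0 v f tz hinj hB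
    have hM2 : 2 * M * ζ ^ 2 * d ≤ 1 / 1000 * σ * d := mul_le_mul_of_nonneg_right hMζ hd0
    have hκ2 : 2 * κ * d ≤ 2 / 1000 * σ * d :=
      mul_le_mul_of_nonneg_right (by linarith) hd0
    have hV0 := cx.dec.V0c
    have hθd : θ * d ≤ 1 / 1000 * σ * d := mul_le_mul_of_nonneg_right hθs hd0
    have hσd : 0 ≤ σ * d := by positivity
    have hσd1 : σ * d ≤ 1 / 100 * d := mul_le_mul_of_nonneg_right hσ1 hd0
    have hS0 : z ∈ X.S0 → (d : ℝ) / 20 ≤ (((nb G z).filter (fun x => x ∉ P.V0 ∧ alc P A x f ∧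
        alc P A v (tz x) ∧ ¬ SC P v x)).card : ℝ) := by
      intro hzS
      have h1 : (nb G z ∩ X.Gd z false) ∪ (nb G z ∩ X.Gd z true) ⊆
          P.V0 ∪ (nb G z).filter (fun x => x ∉ P.V0 ∧ ¬ SC P v x) := by
        intro x hx
        rw [mem_union, mem_filter]
        by_cases hx0 : x ∈ P.V0
        · exact Or.inl hx0
        · right
          have hxg : x ∈ nb G z ∧ ∃ i, x ∈ X.Gd z i := by
            rcases mem_union.1 hx with h | h
            · exact ⟨(mem_inter.1 h).1, false, (mem_inter.1 h).2⟩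
            · exact ⟨(mem_inter.1 h).1, true, (mem_inter.1 h).2⟩
          obtain ⟨h2, i, h3⟩ := hxg
          refine ⟨h2, hx0, fun h4 => ?_⟩
          have h5 := (cx.sup z hzS).2 i x h3 hx0
          rw [← h4.2.1, hB] at h5
          exact absurd h5 (by decide)
      have h2 := (card_le_card h1).trans (card_union_le _ _)
      have h3 : ((nb G z ∩ X.Gd z false) ∪ (nb G z ∩ X.Gd z true)).card =
          (nb G z ∩ X.Gd z false).card + (nb G z ∩ X.Gd z true).card :=
        card_union_of_disjoint ((cx.hp.gd0 z hzS).mono inter_subset_right inter_subset_right)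
      have h4 := cx.hp.gd3 z hzS false
      have h5 := cx.hp.gd3 z hzS true
      have h6 : 2 * d ≤ 8 * (P.V0.card + ((nb G z).filter (fun x => x ∉ P.V0 ∧
          ¬ SC P v x)).card) + 32 := by omega
      have h7 : 2 * (d : ℝ) ≤ 8 * (P.V0.card + ((nb G z).filter (fun x => x ∉ P.V0 ∧
          ¬ SC P v x)).card) + 32 := by exact_mod_cast h6
      linarith
    refine ⟨?_, hS0⟩
    rcases mem_union.1 hz with hzV | hzS
    · have h1 := (cx.vh z hzV hz0).2.1 (P.pc v) (P.sd v) hB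
      have h2 : nb G z \ sV P (P.pc v) (P.sd v) ⊆
          P.V0 ∪ (nb G z).filter (fun x => x ∉ P.V0 ∧ ¬ SC P v x) := by
        intro x hx
        rw [mem_sdiff] at hx
        rw [mem_union, mem_filter]
        by_cases hx0 : x ∈ P.V0
        · exact Or.inl hx0
        · refine Or.inr ⟨hx.1, hx0, fun h4 => hx.2 ?_⟩
          unfold sV
          rw [mem_filter]
          exact ⟨mem_univ _, hx0, h4.2.1.symm, h4.2.2.symm⟩
      have h3 := (card_le_card h2).trans (card_union_le _ _)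
      have h4 : ((nb G z \ sV P (P.pc v) (P.sd v)).card : ℝ) ≤
          P.V0.card + ((nb G z).filter (fun x => x ∉ P.V0 ∧ ¬ SC P v x)).card := by
        exact_mod_cast h3
      linarith
    · have h1 := hS0 hzS
      linarith
  · have hno : (nb G z).filter (fun x => x ∉ P.V0 ∧ alc P A x f ∧ alc P A v (tz x) ∧
        ¬ SC P v x) = (nb G z).filter (fun x => x ∉ P.V0 ∧ alc P A x f ∧ alc P A v (tz x)) := by
      apply filter_congr
      intro x _
      have : ¬ SC P v x := fun h => hB h.1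
      tauto
    rw [hno]
    have h1 := cand G d P A cx.dec cx.pd cx.pal (by linarith) (by linarith) (by linarith) hdbig
      z hz0 v f tz hinj
    have h2 : σ * d ≤ 1 / 100 * d := mul_le_mul_of_nonneg_right hσ1 hd0
    refine ⟨by linarith, fun _ => by linarith⟩

end Pool.Agent.Work.MP_db9399_da.helper94
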