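import Pool.Agent.Work.MP_db9399_da.Pre2

/-!
# MP_db9399, DENSE-ALL, phase 2: FIXH and FIXO (helper94)
-/

set_option autoImplicit false

namespace Pool.Agent.Work.MP_db9399_da.helper94

open Finset Classical
open Pool.Agent.Work.MP_db9399_all (nb)
open Pool.Agent.Work.MP_db9399_da
open Pool.Agent.Work.MP_db9399_da.helper82 (EC StepR alc)

universe u

section basic
variable {V : Type u} [Fintype V] {M : ℕ}

theorem mem_nb (G : SimpleGraph V) (v w : V) : w ∈ nb G v ↔ G.Adj v w := by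
  simp [nb]

theorem mem_Fc2 (G : SimpleGraph V) (X : HD V) (P : Pcs V M) (t : V → V → ℕ) (v : V) (b : ℕ) :
    b ∈ Fc2 G X P t v ↔ ∃ w, (thin2 G X P).Adj v w ∧ t v w = b := by
  unfold Fc2
  rw [mem_image]
  simp only [mem_nb]

omit [Fintype V] in
theorem thin2_V0 (G : SimpleGraph V) (X : HD V) (P : Pcs V M) {z w : V} (hz : z ∈ P.V0)
    (h : G.Adj z w) : (thin2 G X P).Adj z w :=
  ⟨h, fun h' => h'.1.2.1 hz⟩

theorem mem_W0 (X : HD V) (z : V) : z ∈ W0 X ↔ z ∈ X.VH ∨ z ∈ X.S0 := by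
  unfold W0
  rw [mem_union]

theorem W0_card {k d : ℕ} {G : SimpleGraph V} {X : HD V} (h : HP k d G X) :
    (W0 X).card ≤ 2 * k := by
  have h1 := card_union_le X.VH X.S0
  have h2 := h.VHk
  have h3 := h.S0k
  unfold W0
  omega

end basic

section main
variable {C g ρ K π κ ε ε2 σ τ ζ θ : ℝ} {M k k2 K5 L : ℕ} {V : Type u} [Fintype V]
  {G : SimpleGraph V} {d : ℕ} {P : Pcs V M} {A : Pal} {X : HD V} {Ss : Finset ℕ}
  {t0 : V → V → ℕ} {c : V → ℕ} {Sp : Finset ℕ}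

/-- a special colour at a vertex `z` of `W0 ∩ V0` is on an edge to a member outside `V0`, `VH` -/
theorem find_v (cx : Cx C g ρ K π κ ε ε2 σ τ ζ θ k k2 K5 L G d P A X Ss t0 c Sp)
    {Bd : Finset ℕ} {s : ℕ} {t : V → V → ℕ} {U : Finset ℕ}
    (h : PSt τ ζ G d P A X Ss t0 c Bd s t U) {z : V} (hz : z ∈ W0 X) (hz0 : z ∈ P.V0) {b : ℕ}
    (hb : b ∈ Ss) (hbd : b < d + 2) (hbF : b ∈ Fc2 G X P t z) :
    ∃ v, G.Adj z v ∧ ¬ X.H.Adj z v ∧ v ∉ P.V0 ∧ v ∉ X.VH ∧ t z v = b := by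
  obtain ⟨v, h1, h2⟩ := (mem_Fc2 G X P t z b).1 hbF
  have hH : ¬ X.H.Adj z v := by
    intro h3
    have h4 := h.dm z v h3
    omega
  have hG : G.Adj z v := h1.1
  have hv0 : v ∉ P.V0 := by
    intro h3
    by_cases he : t z v = t0 z v
    · have h4 := cx.sh.v0s z hz hz0 v h3 hG
      rw [← he, h2] at h4
      exact h4 hb
    · rcases h.ch z v h1 hH he with h4 | h4
      · exact h4.2.2.1 h3
      · exact h4.2.2.1 hz0
  have hvV : v ∉ X.VH := by
    intro h3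
    exact hH ((cx.hp.VV v h3 z ((mem_W0 X z).1 hz) hG.symm).symm)
  exact ⟨v, hG, hH, hv0, hvV, h2⟩

theorem S0_V0 (cx : Cx C g ρ K π κ ε ε2 σ τ ζ θ k k2 K5 L G d P A X Ss t0 c Sp) {z : V}
    (hz : z ∈ X.S0) : z ∈ P.V0 := (cx.sup z hz).1

theorem inj_V0 {Bd : Finset ℕ} {s : ℕ} {t : V → V → ℕ} {U : Finset ℕ}
    (h : PSt τ ζ G d P A X Ss t0 c Bd s t U) {z : V} (hz0 : z ∈ P.V0) :
    Set.InjOn (t z) (nb G z : Set V) := by
  intro x hx y hy he
  rw [mem_coe, mem_nb] at hx hy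
  exact h.ec.inj z x y (thin2_V0 G X P hz0 hx) (thin2_V0 G X P hz0 hy) he

/-- one step: the special colour `b` is removed from `z` -/
theorem one (hCNH : Stmt_CNH.{u}) (hFRE : Stmt_FRE.{u}) (hSTPA : Stmt_STPA.{u})
    (cx : Cx C g ρ K π κ ε ε2 σ τ ζ θ k k2 K5 L G d P A X Ss t0 c Sp)
    {Bd : Finset ℕ} {s : ℕ} {t : V → V → ℕ} {U : Finset ℕ}
    (h : PSt τ ζ G d P A X Ss t0 c Bd s t U) (hBd : Bd.card ≤ 100 * L) (hs : s ≤ 100 * L)
    (hgS : gS G X t) {z : V} (hz : z ∈ W0 X) (hz0 : z ∈ P.V0) {b f : ℕ}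
    (hb : b ∈ Ss) (hbd : b < d + 2) (hbF : b ∈ Fc2 G X P t z)
    (hbf : (z ∈ X.VH ∧ b = X.c0 z ∧ f = c z) ∨ ∃ u, X.H.Adj z u ∧ b = X.h0 z ∧ f = t0 z u)
    (hS : z ∈ X.S0 → 1000 * ((nb G z).filter (fun x => f ∈ X.ne z x)).card ≤ d) (hfb : f ≠ b) :
    ∃ (t' : V → V → ℕ) (U' : Finset ℕ), PSt τ ζ G d P A X Ss t0 c Bd (s + 1) t' U' ∧
      gS G X t' ∧ (Fc2 G X P t' z = insert f ((Fc2 G X P t z).erase b)) ∧
      ∀ y ∈ P.V0, y ≠ z → Fc2 G X P t' y = Fc2 G X P t y := by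
  obtain ⟨v, hG, hH, hv0, hvV, htv⟩ := find_v cx h hz hz0 hb hbd hbF
  have hC := hCNH C g ρ K π κ ε ε2 σ τ ζ θ M k k2 K5 L G d P A X Ss t0 c Sp cx z v f (t z) hz hz0
    hv0 (inj_V0 h hz0)
  have hσ1 := cx.nu.σ1
  have hσ0 := cx.nu.σ0
  have hd : (0 : ℝ) ≤ d := Nat.cast_nonneg d
  -- candidates
  obtain ⟨Cs, hCs⟩ : ∃ Cs : Finset V, Cs = ((nb G z).filter (fun x => x ∉ P.V0 ∧ alc P A x f ∧
      alc P A v (t z x) ∧ ¬ SC P v x)).filter (fun x => z ∈ X.S0 → f ∉ X.ne z x) := ⟨_, rfl⟩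
  have hCsc : σ / 10 * d ≤ (Cs.card : ℝ) := by
    by_cases hzS : z ∈ X.S0
    · have h1 := hC.2 hzS
      have h2 := hS hzS
      have h3 : ((nb G z).filter (fun x => x ∉ P.V0 ∧ alc P A x f ∧
          alc P A v (t z x) ∧ ¬ SC P v x)).card ≤
          Cs.card + ((nb G z).filter (fun x => f ∈ X.ne z x)).card := by
        refine le_trans (card_le_card ?_) (card_union_le _ _)
        intro x hx
        rw [mem_union, hCs, mem_filter]
        by_cases hfx : f ∈ X.ne z x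
        · right
          rw [mem_filter] at hx ⊢
          exact ⟨hx.1, hfx⟩
        · left
          exact ⟨hx, fun _ => hfx⟩
      have h4 : (((nb G z).filter (fun x => x ∉ P.V0 ∧ alc P A x f ∧
          alc P A v (t z x) ∧ ¬ SC P v x)).card : ℝ) ≤
          (Cs.card : ℝ) + (((nb G z).filter (fun x => f ∈ X.ne z x)).card : ℝ) := by
        exact_mod_cast h3
      have h5 : 1000 * (((nb G z).filter (fun x => f ∈ X.ne z x)).card : ℝ) ≤ d := by
        exact_mod_cast h2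
      nlinarith
    · have h1 := hC.1
      have h2 : Cs = (nb G z).filter (fun x => x ∉ P.V0 ∧ alc P A x f ∧
          alc P A v (t z x) ∧ ¬ SC P v x) := by
        rw [hCs]
        apply filter_true_of_mem
        intro x _ h3
        exact absurd h3 hzS
      rw [h2]
      nlinarith
  have hCsub : Cs ⊆ nb G z := by
    rw [hCs]
    exact (filter_subset _ _).trans (filter_subset _ _)
  have hCs0 : ∀ x ∈ Cs, x ∉ P.V0 := by
    intro x hx
    rw [hCs, mem_filter, mem_filter] at hx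
    exact hx.1.2.1
  obtain ⟨x, hxC, hxv, hxV, hxH, hxP1, hxn, hxZ, hx3, hxf, hxne⟩ :=
    hFRE C g ρ K π κ ε ε2 σ τ ζ θ M k k2 K5 L G d P A X Ss t0 c Sp cx Bd s t U h hBd hs z v f Cs
      hz0 hv0 hCsub hCs0 hCsc
  have hxG : G.Adj z x := (mem_nb G z x).1 (hCsub hxC)
  have hx0 := hCs0 x hxC
  rw [hCs, mem_filter, mem_filter] at hxC
  obtain ⟨⟨_, _, hxa1, hxa2, hxSC⟩, hxfn⟩ := hxC
  obtain ⟨t', hst, hP⟩ := hSTPA C g ρ K π κ ε ε2 σ τ ζ θ M k k2 K5 L G d P A X Ss t0 c Sp cx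
    Bd s t U h z v x b (t z x) f hz hz0 hG hxG (Ne.symm hxv) hv0 hvV hx0 hxV htv rfl
    (Or.inr hbf) hxP1 hxn hxZ hx3 hxf hxa2 hxa1 (Or.inr hxSC)
    (fun hzS => ⟨hxne hzS, hxfn hzS⟩)
  refine ⟨t', _, hP, ?_, hst.Fz, ?_⟩
  · intro z' hz' w hw hHw
    have hz'0 := S0_V0 cx hz'
    by_cases h1 : (z' = z ∧ w = v) ∨ (z' = v ∧ w = z)
    · rcases h1 with ⟨rfl, rfl⟩ | ⟨rfl, _⟩
      · rw [hst.zv]
        exact hxne hz'
      · exact absurd hz'0 hv0
    · by_cases h2 : (z' = z ∧ w = x) ∨ (z' = x ∧ w = z)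
      · rcases h2 with ⟨rfl, rfl⟩ | ⟨rfl, _⟩
        · rw [hst.zx]
          exact hxfn hz'
        · exact absurd hz'0 hx0
      · rw [hst.old z' w h1 h2]
        exact hgS z' hz' w hw hHw
  · intro y hy hyz
    exact hst.Fo y hyz (fun h1 => hv0 (h1 ▸ hy)) (fun h1 => hx0 (h1 ▸ hy))

end main

/-- FIXH -/
theorem stmt_FIXH (hCNH : Stmt_CNH.{u}) (hFRE : Stmt_FRE.{u}) (hSTPA : Stmt_STPA.{u}) :
    Stmt_FIXH.{u} := by
  intro C g ρ K π κ ε ε2 σ τ ζ θ M k k2 K5 L V _ G d P A X Ss t0 c Sp cx Bd s t U hP hBd hs hgS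
  have hkL := cx.nu.kL
  have hW := W0_card cx.hp
  -- induction on the number of vertices which are not finished
  have key : ∀ (n : ℕ) (s' : ℕ) (t' : V → V → ℕ) (U' : Finset ℕ), s' + n ≤ s + 2 * k →
      PSt τ ζ G d P A X Ss t0 c Bd s' t' U' → gS G X t' →
      ((W0 X).filter (fun z => z ∈ P.V0 ∧ ∃ u, X.H.Adj z u ∧ X.h0 z ∈ Fc2 G X P t' z)).card ≤ n →
      ∃ (t'' : V → V → ℕ) (U'' : Finset ℕ) (s'' : ℕ), s'' ≤ s + 2 * k ∧
        PSt τ ζ G d P A X Ss t0 c Bd s'' t'' U'' ∧ gS G X t'' ∧ gH G P X t'' := by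
    intro n
    induction n with
    | zero =>
      intro s' t' U' hs' hP' hg' hn
      refine ⟨t', U', s', by omega, hP', hg', ?_⟩
      intro z hz hz0 u hu hF
      have h1 : z ∈ (W0 X).filter (fun z => z ∈ P.V0 ∧ ∃ u, X.H.Adj z u ∧
          X.h0 z ∈ Fc2 G X P t' z) := by
        rw [mem_filter]
        exact ⟨hz, hz0, u, hu, hF⟩
      have h2 := card_pos.2 ⟨z, h1⟩
      omega
    | succ n ih =>
      intro s' t' U' hs' hP' hg' hn
      by_cases hemp : ((W0 X).filter (fun z => z ∈ P.V0 ∧ ∃ u, X.H.Adj z u ∧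
          X.h0 z ∈ Fc2 G X P t' z)) = ∅
      · exact ih s' t' U' (by omega) hP' hg' (by rw [hemp]; simp)
      · obtain ⟨z, hzm⟩ := nonempty_iff_ne_empty.2 hemp
        have hzm' := hzm
        rw [mem_filter] at hzm'
        obtain ⟨hz, hz0, u, hu, hF⟩ := hzm'
        have hSs : X.h0 z ∈ Ss := by
          rcases cx.hp.HH z u hu with h1 | h1
          · exact (cx.sV z h1).2
          · rw [(cx.hp.h0l z u hu).2]
            exact (cx.sV u h1).2
        have hfb : t0 z u ≠ X.h0 z := by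
          intro h1
          have h2 := hP'.hol z hz hz0 u hu hF
          rw [h1] at h2
          exact h2 hF
        obtain ⟨t1, U1, hP1, hg1, hFz, hFo⟩ := one hCNH hFRE hSTPA cx hP' (by omega) (by omega)
          hg' hz hz0 hSs (cx.hp.h0l z u hu).1 hF (Or.inr ⟨u, hu, rfl, rfl⟩)
          (fun hzS => cx.sh.hl z hzS u hu) hfb
        refine ih (s' + 1) t1 U1 (by omega) hP1 hg1 ?_
        have hsub : ((W0 X).filter (fun z => z ∈ P.V0 ∧ ∃ u, X.H.Adj z u ∧
            X.h0 z ∈ Fc2 G X P t1 z)) ⊆ ((W0 X).filter (fun z => z ∈ P.V0 ∧ ∃ u, X.H.Adj z u ∧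
            X.h0 z ∈ Fc2 G X P t' z)).erase z := by
          intro y hy
          rw [mem_filter] at hy
          obtain ⟨hyW, hy0, u', hu', hFy⟩ := hy
          have hyz : y ≠ z := by
            intro h1
            rw [h1, hFz, mem_insert, mem_erase] at hFy
            rcases hFy with h2 | h2
            · exact hfb h2.symm
            · exact h2.1 rfl
          rw [hFo y hy0 hyz] at hFy
          rw [mem_erase, mem_filter]
          exact ⟨hyz, hyW, hy0, u', hu', hFy⟩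
        have h3 := card_le_card hsub
        rw [card_erase_of_mem hzm] at h3
        omega
  exact key (2 * k) s t U (le_refl _) hP hgS (le_trans (card_filter_le _ _) hW)

/-- FIXO -/
theorem stmt_FIXO (hCNH : Stmt_CNH.{u}) (hFRE : Stmt_FRE.{u}) (hSTPA : Stmt_STPA.{u}) :
    Stmt_FIXO.{u} := by
  intro C g ρ K π κ ε ε2 σ τ ζ θ M k k2 K5 L V _ G d P A X Ss t0 c Sp cx Bd s t U hP hBd hs hgS
    hgH
  have hkL := cx.nu.kL
  have hW := cx.hp.VHk
  have key : ∀ (n : ℕ) (s' : ℕ) (t' : V → V → ℕ) (U' : Finset ℕ), s' + n ≤ s + k →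
      PSt τ ζ G d P A X Ss t0 c Bd s' t' U' → gS G X t' → gH G P X t' →
      (X.VH.filter (fun z => z ∈ P.V0 ∧ X.c0 z ∈ Fc2 G X P t' z)).card ≤ n →
      ∃ (t'' : V → V → ℕ) (U'' : Finset ℕ) (s'' : ℕ), s'' ≤ s + k ∧
        PSt τ ζ G d P A X Ss t0 c Bd s'' t'' U'' ∧ gS G X t'' ∧ gH G P X t'' ∧
        gO G P X t'' := by
    intro n
    induction n with
    | zero =>
      intro s' t' U' hs' hP' hg' hgh' hn
      refine ⟨t', U', s', by omega, hP', hg', hgh', ?_⟩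
      intro z hz hz0 hF
      have h1 : z ∈ X.VH.filter (fun z => z ∈ P.V0 ∧ X.c0 z ∈ Fc2 G X P t' z) := by
        rw [mem_filter]
        exact ⟨hz, hz0, hF⟩
      have h2 := card_pos.2 ⟨z, h1⟩
      omega
    | succ n ih =>
      intro s' t' U' hs' hP' hg' hgh' hn
      by_cases hemp : (X.VH.filter (fun z => z ∈ P.V0 ∧ X.c0 z ∈ Fc2 G X P t' z)) = ∅
      · exact ih s' t' U' (by omega) hP' hg' hgh' (by rw [hemp]; simp)
      · obtain ⟨z, hzm⟩ := nonempty_iff_ne_empty.2 hemp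
        have hzm' := hzm
        rw [mem_filter] at hzm'
        obtain ⟨hz, hz0, hF⟩ := hzm'
        have hzW : z ∈ W0 X := (mem_W0 X z).2 (Or.inl hz)
        have hcSp : c z ∈ Sp := by
          rw [cx.pre.own]
          exact mem_image_of_mem c hz0
        have hcs : c z ∉ Ss := disjoint_left.1 cx.sh.sS hcSp
        have hfb : c z ≠ X.c0 z := fun h1 => hcs (h1 ▸ (cx.sV z hz).1)
        have hfh : c z ≠ X.h0 z := fun h1 => hcs (h1 ▸ (cx.sV z hz).2)
        obtain ⟨t1, U1, hP1, hg1, hFz, hFo⟩ := one hCNH hFRE hSTPA cx hP' (by omega) (by omega)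
          hg' hzW hz0 (cx.sV z hz).1 (cx.hp.c0l z hz) hF (Or.inl ⟨hz, rfl, rfl⟩)
          (fun hzS => absurd hzS (disjoint_left.1 cx.hp.dj hz)) hfb
        have hgh1 : gH G P X t1 := by
          intro y hy hy0 u hu hFy
          by_cases hyz : y = z
          · rw [hyz, hFz, mem_insert, mem_erase] at hFy
            rcases hFy with h2 | h2
            · exact hfh h2.symm
            · exact hgh' z hzW hz0 u (hyz ▸ hu) h2.2
          · rw [hFo y hy0 hyz] at hFy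
            exact hgh' y hy hy0 u hu hFy
        refine ih (s' + 1) t1 U1 (by omega) hP1 hg1 hgh1 ?_
        have hsub : (X.VH.filter (fun z => z ∈ P.V0 ∧ X.c0 z ∈ Fc2 G X P t1 z)) ⊆
            (X.VH.filter (fun z => z ∈ P.V0 ∧ X.c0 z ∈ Fc2 G X P t' z)).erase z := by
          intro y hy
          rw [mem_filter] at hy
          obtain ⟨hyW, hy0, hFy⟩ := hy
          have hyz : y ≠ z := by
            intro h1
            rw [h1, hFz, mem_insert, mem_erase] at hFy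
            rcases hFy with h2 | h2
            · exact hfb h2.symm
            · exact h2.1 rfl
          rw [hFo y hy0 hyz] at hFy
          rw [mem_erase, mem_filter]
          exact ⟨hyz, hyW, hy0, hFy⟩
        have h3 := card_le_card hsub
        rw [card_erase_of_mem hzm] at h3
        omega
  exact key k s t U (le_refl _) hP hgS hgH (le_trans (card_filter_le _ _) hW)

end Pool.Agent.Work.MP_db9399_da.helper94
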