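import Pool.Agent.Work.MP_db9399_da.Frame
import Pool.Agent.Work.MP_db9399_da_helper62.Base
import Pool.Agent.Work.MP_db9399_exp_helper99.VCX

/-!
# MP_db9399, DENSE-ALL, block OWNN (helper94)

Own colours of the pieces of type N: VCX (sparse neighbourhoods), then every colour class is cut
into blocks of bounded size and the blocks get different colours of the palette (Hall).
-/

set_option autoImplicit false

namespace Pool.Agent.Work.MP_db9399_da.helper94

open Finset Classical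
open Pool.Agent.Work.MP_db9399_all (nb mis)
open Pool.Agent.Work.MP_db9399_da.helper62 (mem_nb nb_split card_nb_bk)

universe u

namespace OWNN

theorem mem_mis {X : Type u} [Fintype X] (G : SimpleGraph X) (A : Finset X) (p : X × X) :
    p ∈ mis G A ↔ (p.1 ∈ A ∧ p.2 ∈ A) ∧ p.1 ≠ p.2 ∧ ¬ G.Adj p.1 p.2 := by
  unfold mis
  rw [mem_filter, mem_product]

/-- number of missing pairs of a set -/
theorem mis_ge {X : Type u} [Fintype X] [DecidableEq X] (G : SimpleGraph X) (A : Finset X) :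
    (A.card : ℝ) ^ 2 ≤ (mis G A).card + A.card + ∑ a ∈ A, ((nb G a ∩ A).card : ℝ) := by
  have h1 : A ×ˢ A ⊆ mis G A ∪ (A.image (fun a => (a, a)) ∪
      A.biUnion (fun a => (nb G a ∩ A).image (fun b => (a, b)))) := by
    rintro ⟨a, b⟩ hab
    rw [mem_product] at hab
    rw [mem_union, mem_union]
    by_cases h2 : a = b
    · subst h2
      exact Or.inr (Or.inl (mem_image.2 ⟨a, hab.1, rfl⟩))
    · by_cases h3 : G.Adj a b
      · refine Or.inr (Or.inr (mem_biUnion.2 ⟨a, hab.1, mem_image.2 ⟨b, ?_, rfl⟩⟩))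
        exact mem_inter.2 ⟨(mem_nb _ _ _).2 h3, hab.2⟩
      · refine Or.inl ?_
        exact (mem_mis _ _ _).2 ⟨hab, h2, h3⟩
  have h2 := (card_le_card h1).trans ((card_union_le _ _).trans
    (Nat.add_le_add_left (card_union_le _ _) _))
  have h3 : (A.biUnion (fun a => (nb G a ∩ A).image (fun b => (a, b)))).card ≤
      ∑ a ∈ A, (nb G a ∩ A).card :=
    card_biUnion_le.trans (sum_le_sum fun a _ => card_image_le)
  have h4 : (A.image (fun a => (a, a))).card ≤ A.card := card_image_le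
  rw [card_product] at h2
  have h5 : A.card * A.card ≤ (mis G A).card + (A.card + ∑ a ∈ A, (nb G a ∩ A).card) := by omega
  have h6 : ((A.card * A.card : ℕ) : ℝ) ≤
      (((mis G A).card + (A.card + ∑ a ∈ A, (nb G a ∩ A).card) : ℕ) : ℝ) := by exact_mod_cast h5
  push_cast at h6
  rw [sq]
  linarith

/-- missing pairs along an injective embedding of induced graphs -/
theorem mis_map_le {X Y : Type u} (G : SimpleGraph X) (H : SimpleGraph Y) (f : X → Y)
    (hf : Function.Injective f) (h : ∀ x y, H.Adj (f x) (f y) → G.Adj x y)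
    (A : Finset X) (B : Finset Y) (hAB : ∀ x ∈ A, f x ∈ B) :
    (mis G A).card ≤ (mis H B).card := by
  apply card_le_card_of_injOn (fun p => (f p.1, f p.2))
  · rintro ⟨x, y⟩ hp
    rw [mem_coe] at hp ⊢
    unfold mis at hp ⊢
    rw [mem_filter, mem_product] at hp ⊢
    exact ⟨⟨hAB _ hp.1.1, hAB _ hp.1.2⟩, fun h' => hp.2.1 (hf h'), fun h' => hp.2.2 (h _ _ h')⟩
  · rintro ⟨x, y⟩ _ ⟨x', y'⟩ _ h'
    simp only [Prod.mk.injEq] at h'
    exact Prod.ext (hf h'.1) (hf h'.2)

/-- a set is cut into blocks of at most `s` elements -/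
theorem cut_blocks {X : Type u} (A : Finset X) (s : ℕ) (hs : 0 < s) :
    ∃ f : X → Fin (A.card / s + 1), ∀ j, (A.filter (fun x => f x = j)).card ≤ s := by
  let e : X → ℕ := fun x => if h : x ∈ A then (A.equivFin ⟨x, h⟩).val else 0
  have he : ∀ x ∈ A, e x < A.card := by
    intro x hx
    simp only [e, dif_pos hx]
    exact Fin.is_lt _
  have hinj : Set.InjOn e (A : Set X) := by
    intro x hx y hy hxy
    rw [mem_coe] at hx hy
    simp only [e, dif_pos hx, dif_pos hy] at hxy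
    have := A.equivFin.injective (Fin.ext hxy)
    exact congrArg Subtype.val this
  refine ⟨fun x => if h : x ∈ A then ⟨e x / s, ?_⟩ else ⟨0, Nat.succ_pos _⟩, ?_⟩
  · exact Nat.lt_succ_of_le (Nat.div_le_div_right (he x h).le)
  · intro j
    have h1 : (A.filter (fun x => (if h : x ∈ A then
        (⟨e x / s, Nat.lt_succ_of_le (Nat.div_le_div_right (he x h).le)⟩ : Fin (A.card / s + 1))
        else ⟨0, Nat.succ_pos _⟩) = j)).card ≤ (Finset.Ico (s * j.val) (s * j.val + s)).card := by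
      apply card_le_card_of_injOn e
      · intro x hx
        rw [mem_coe, mem_filter] at hx
        have h2 := congrArg Fin.val hx.2
        rw [dif_pos hx.1] at h2
        simp only at h2
        rw [mem_coe, mem_Ico]
        have h3 := Nat.div_add_mod (e x) s
        have h4 := Nat.mod_lt (e x) hs
        rw [h2] at h3
        omega
      · intro x hx y hy hxy
        rw [mem_coe, mem_filter] at hx hy
        exact hinj (mem_coe.2 hx.1) (mem_coe.2 hy.1) hxy
    refine h1.trans ?_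
    rw [Nat.card_Ico]
    omega

/-- Hall: different colours from almost complete lists -/
theorem hall {ι : Type u} [Fintype ι] (L : ι → Finset ℕ)
    (hL : ∀ i, Fintype.card ι ≤ (L i).card) :
    ∃ f : ι → ℕ, Function.Injective f ∧ ∀ i, f i ∈ L i := by
  apply (Finset.all_card_le_biUnion_card_iff_exists_injective L).1
  intro T
  rcases T.eq_empty_or_nonempty with rfl | ⟨i, hi⟩
  · simp
  · calc T.card ≤ Fintype.card ι := card_le_univ T
      _ ≤ (L i).card := hL i
      _ ≤ (T.biUnion L).card := card_le_card (subset_biUnion_of_mem L hi)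

/-- local sparsity in a piece of type N -/
theorem sparse {V : Type u} [Fintype V] {M : ℕ} {C g ρ ζ θ : ℝ} {G : SimpleGraph V} {d : ℕ}
    {P : Pcs V M} (hP : DecP C g ρ ζ θ G d P) (hg : 0 < g) (hg1 : g ≤ 1 / 10) (hρ : 0 < ρ)
    (hρ1 : ρ ≤ 1) (hζ : ζ ≤ ρ * g / 16) (hd : 16 / (ρ * g) ≤ d) (n : Fin M)
    (hn : P.ty n = Ty.N) (v : Ts P n) :
    ρ * g / 8 * (d : ℝ) ^ 2 ≤ ((mis (bk G P n) (nb (bk G P n) v)).card : ℝ) := by
  have hρg : 0 < ρ * g := by positivity
  have hρg1 : ρ * g ≤ 1 / 10 := by nlinarith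
  have hd0 : (0 : ℝ) ≤ d := Nat.cast_nonneg _
  have hdpos : 16 ≤ ρ * g * d := by
    rw [div_le_iff₀ hρg] at hd
    linarith
  set W := nb (bk G P n) v with hW
  have hdeg : ∀ w : Ts P n, (nb (bk G P n) w).card ≤ d := by
    intro w
    rw [card_nb_bk]
    have h1 := nb_split G P w.1
    rw [hP.reg] at h1
    omega
  have hWle : (W.card : ℝ) ≤ d := by exact_mod_cast hdeg v
  have hWge : (1 - ζ) * d ≤ (W.card : ℝ) := by
    have h1 := nb_split G P v.1
    rw [hP.reg, ← card_nb_bk] at h1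
    have h2 := hP.thd v.1 v.2.1
    have h3 : (W.card : ℝ) + ((nb (thin G P) v.1).card : ℝ) = d := by exact_mod_cast h1
    linarith
  have hcomp : g / 2 * d ≤ ((univ \ W).card : ℝ) := by
    have h1 := hP.nL n hn
    have h2 : ((univ \ W).card : ℝ) = (Fintype.card (Ts P n) : ℝ) - W.card := by
      have h3 := card_sdiff_add_card_inter (univ : Finset (Ts P n)) W
      rw [univ_inter, card_univ] at h3
      have : ((univ \ W).card : ℝ) + W.card = (Fintype.card (Ts P n) : ℝ) := by exact_mod_cast h3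
      linarith
    rw [h2]
    linarith
  have hcut := hP.cut n (Or.inl hn) W
  have hsum : ∑ w ∈ W, ((nb (bk G P n) w ∩ W).card : ℝ) ≤ d * W.card -
      ∑ w ∈ W, ((nb (bk G P n) w \ W).card : ℝ) := by
    have h1 : ∑ w ∈ W, (((nb (bk G P n) w ∩ W).card : ℝ) + ((nb (bk G P n) w \ W).card : ℝ)) ≤
        ∑ w ∈ W, (d : ℝ) := by
      apply sum_le_sum
      intro w _
      have h2 := card_sdiff_add_card_inter (nb (bk G P n) w) W
      have h3 := hdeg w
      have h4 : (nb (bk G P n) w ∩ W).card + (nb (bk G P n) w \ W).card ≤ d := by omega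
      exact_mod_cast h4
    rw [sum_add_distrib, sum_const, nsmul_eq_mul] at h1
    linarith
  have hmis := mis_ge (bk G P n) W
  have hW0 : (0 : ℝ) ≤ W.card := Nat.cast_nonneg _
  have hζ1 : ζ ≤ 1 / 2 := by linarith
  have hc1 : ρ * ((1 - ζ) * d) * (g / 2 * d) ≤ ρ * W.card * (univ \ W).card := by
    apply mul_le_mul
    · exact mul_le_mul_of_nonneg_left hWge hρ.le
    · exact hcomp
    · positivity
    · positivity
  have hc2 : ρ * g / 4 * (d : ℝ) ^ 2 ≤ ρ * ((1 - ζ) * d) * (g / 2 * d) := by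
    have h1 : ρ * ((1 - ζ) * d) * (g / 2 * d) - ρ * g / 4 * (d : ℝ) ^ 2 =
        ρ * g / 4 * (d : ℝ) ^ 2 * (1 - 2 * ζ) := by ring
    have h2 : 0 ≤ ρ * g / 4 * (d : ℝ) ^ 2 * (1 - 2 * ζ) :=
      mul_nonneg (by positivity) (by linarith)
    linarith
  have hc3 : (W.card : ℝ) * (d - W.card) ≤ ρ * g / 16 * (d : ℝ) ^ 2 := by
    have h1 : (d : ℝ) - W.card ≤ ρ * g / 16 * d := by nlinarith
    calc (W.card : ℝ) * (d - W.card) ≤ d * (ρ * g / 16 * d) := by
          apply mul_le_mul hWle h1 (by linarith) hd0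
      _ = ρ * g / 16 * (d : ℝ) ^ 2 := by ring
  have hc4 : (W.card : ℝ) ≤ ρ * g / 16 * (d : ℝ) ^ 2 := by
    nlinarith
  have hfin : (mis (bk G P n) W).card ≥
      (W.card : ℝ) ^ 2 - W.card - (d * W.card - ρ * g / 4 * (d : ℝ) ^ 2) := by
    linarith
  nlinarith

end OWNN

open OWNN in
/-- **OWNN** -/
theorem stmt_OWNN : Stmt_OWNN.{u} := by
  intro C g ρ M hC hg hg1 hρ hρ1
  have hρg : 0 < ρ * g := by positivity
  obtain ⟨κ, Δ0, hκ, hκ1, hvcx⟩ :=
    Pool.Agent.Work.MP_db9399_exp.helper99.stmt_VCX.{u} (ρ * g / 8) (by positivity)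
  have hC0 : 0 < C := by linarith
  set s1 : ℕ := ⌈4 * C / κ⌉₊ + 1 with hs1
  have hs1pos : 0 < s1 := Nat.succ_pos _
  have hs1R : 4 * C / κ ≤ (s1 : ℝ) := by
    rw [hs1]
    push_cast
    linarith [Nat.le_ceil (4 * C / κ)]
  have hs1R0 : (0 : ℝ) < s1 := by exact_mod_cast hs1pos
  refine ⟨κ / 4, min (ρ * g / 16) (κ / (8 * s1)), s1, ⌈16 / (ρ * g) + Δ0 + 4 / κ⌉₊,
    by positivity, by linarith, lt_min (by positivity) (by positivity), ?_⟩
  intro V _ G d P ζ θ Pl F hd hζ hθ hP hPl hF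
  have hdR : 16 / (ρ * g) + Δ0 + 4 / κ ≤ d := by
    refine (Nat.le_ceil _).trans ?_
    exact_mod_cast hd
  have q1 : 0 < 16 / (ρ * g) := by positivity
  have q2 : (0 : ℝ) ≤ (Δ0 : ℝ) := Nat.cast_nonneg _
  have q3 : 0 < 4 / κ := by positivity
  have d1 : 16 / (ρ * g) ≤ d := by linarith
  have d2 : Δ0 ≤ d := by
    have : (Δ0 : ℝ) ≤ d := by linarith
    exact_mod_cast this
  have d3 : 4 ≤ κ * d := by
    have : 4 / κ ≤ d := by linarith
    rw [div_le_iff₀ hκ] at this
    linarith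
  have hd0 : (0 : ℝ) ≤ d := Nat.cast_nonneg _
  have hζ1 : ζ ≤ ρ * g / 16 := hζ.trans (min_le_left _ _)
  -- the vertices of the pieces of type N
  let X : Type u := {v : V // v ∉ P.V0 ∧ P.ty (P.pc v) = Ty.N}
  let GX : SimpleGraph X := G.comap (fun v => v.1)
  let k : ℕ := ⌈(1 - κ) * d⌉₊
  have hk : (k : ℝ) ≤ (1 - κ) * d + 1 :=
    (Nat.ceil_lt_add_one (mul_nonneg (by linarith) hd0)).le
  obtain ⟨S, σ0, hS⟩ : ∃ (S : Type) (σ0 : S), ∀ s : S, s = σ0 := ⟨Unit, (), fun _ => rfl⟩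
  obtain ⟨c0, -, hc0, -⟩ := hvcx GX ∅ d k (fun _ => ∅) S (fun _ => σ0) (fun _ => univ) d2
    (by
      intro v _
      have h1 : (nb GX v).card ≤ d := by
        rw [← hP.reg v.1]
        apply card_le_card_of_injOn (fun w => w.1)
        · intro w hw
          rw [mem_coe, mem_nb] at hw
          rw [mem_coe, mem_nb]
          exact hw
        · intro w _ w' _ h
          exact Subtype.ext h
      exact (card_le_card (filter_subset _ _)).trans h1)
    (by
      intro v _
      have hn : P.ty (P.pc v.1) = Ty.N := v.2.2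
      have h1 := sparse hP hg hg1 hρ hρ1 hζ1 d1 (P.pc v.1) hn ⟨v.1, v.2.1, rfl⟩
      refine h1.trans (Nat.cast_le.2 ?_)
      refine mis_map_le (bk G P (P.pc v.1)) GX
        (fun w => (⟨w.1, w.2.1, by rw [w.2.2]; exact hn⟩ : X))
        (fun w w' h => Subtype.ext (congrArg (fun x : X => x.1) h)) ?_ _ _ ?_
      · intro x y hxy
        refine ⟨hxy, x.2.1, y.2.1, ?_, ?_⟩
        · rw [x.2.2, y.2.2]
        · intro h
          rw [x.2.2, hn] at h
          exact absurd h (by decide)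
      · intro x hx
        rw [mem_nb] at hx
        exact mem_filter.2 ⟨(mem_nb _ _ _).2 hx.1, notMem_empty _, (hS _).symm⟩)
    (by intro u hu; simp at hu)
    (by intro v; simp)
    (by
      intro _
      rw [card_univ, Fintype.card_fin]
      exact Nat.le_ceil _)
    (by
      intro s s' h
      exact absurd ((hS s).trans (hS s').symm) h)
  -- blocks
  let A : Fin k → Finset X := fun i => univ.filter (fun v => c0 v = i)
  have hb : ∀ i, ∃ f : X → Fin ((A i).card / s1 + 1),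
      ∀ j, ((A i).filter (fun x => f x = j)).card ≤ s1 := fun i => cut_blocks (A i) s1 hs1pos
  choose f hf using hb
  let ι : Type := Σ i : Fin k, Fin ((A i).card / s1 + 1)
  let bl : X → ι := fun v => ⟨c0 v, f (c0 v) v⟩
  have hblc : ∀ j : ι, (univ.filter (fun v => bl v = j)).card ≤ s1 := by
    rintro ⟨i, j⟩
    refine (card_le_card ?_).trans (hf i j)
    intro v hv
    rw [mem_filter] at hv
    have h1 : bl v = ⟨i, j⟩ := hv.2
    have h2 : c0 v = i := congrArg Sigma.fst h1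
    subst h2
    rw [mem_filter]
    refine ⟨mem_filter.2 ⟨mem_univ _, rfl⟩, ?_⟩
    exact eq_of_heq (Sigma.mk.inj_iff.1 h1).2
  have hι : (Fintype.card ι : ℝ) ≤ (1 - κ / 2) * d := by
    have h1 : Fintype.card ι = ∑ i : Fin k, ((A i).card / s1 + 1) := by
      rw [Fintype.card_sigma]
      simp
    have h2 : (Fintype.card ι : ℝ) = ∑ i : Fin k, ((((A i).card / s1 : ℕ) : ℝ) + 1) := by
      rw [h1]
      push_cast
      rfl
    have h3 : ∑ i : Fin k, ((((A i).card / s1 : ℕ) : ℝ) + 1) ≤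
        ∑ i : Fin k, (((A i).card : ℝ) / s1 + 1) :=
      sum_le_sum fun i _ => by
        have := Nat.cast_div_le (α := ℝ) (m := (A i).card) (n := s1)
        linarith
    have h4 : ∑ i : Fin k, (((A i).card : ℝ) / s1 + 1) =
        (∑ i : Fin k, ((A i).card : ℝ)) / s1 + k := by
      rw [sum_add_distrib, ← sum_div]
      simp
    have h5 : ∑ i : Fin k, (A i).card = Fintype.card X := by
      rw [← card_univ (α := X)]
      exact (card_eq_sum_card_fiberwise (f := c0) (s := univ) (t := univ)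
        (fun v _ => mem_univ _)).symm
    have h6 : (∑ i : Fin k, ((A i).card : ℝ)) = (Fintype.card X : ℝ) := by exact_mod_cast h5
    have h7 : (Fintype.card X : ℝ) ≤ C * d :=
      le_trans (by exact_mod_cast Fintype.card_subtype_le _) hP.siz
    have h8 : (Fintype.card X : ℝ) / s1 ≤ κ / 4 * d := by
      rw [div_le_iff₀ hs1R0]
      refine h7.trans ?_
      have h9 : C ≤ κ / 4 * s1 := by
        rw [div_le_iff₀ hκ] at hs1R
        linarith
      nlinarith
    rw [h2]
    refine h3.trans ?_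
    rw [h4, h6]
    linarith
  -- lists of the blocks
  let Φ : ι → Finset ℕ := fun j => (univ.filter (fun v : X => bl v = j)).biUnion (fun v => F v.1)
  have hΦ : ∀ j, ((Φ j).card : ℝ) ≤ κ / 8 * d := by
    intro j
    have h1 : (Φ j).card ≤ ∑ v ∈ univ.filter (fun v : X => bl v = j), (F v.1).card :=
      card_biUnion_le
    have h2 : ((Φ j).card : ℝ) ≤ ∑ v ∈ univ.filter (fun v : X => bl v = j), ((F v.1).card : ℝ) := by
      exact_mod_cast h1
    have h3 : ∑ v ∈ univ.filter (fun v : X => bl v = j), ((F v.1).card : ℝ) ≤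
        ∑ v ∈ univ.filter (fun v : X => bl v = j), κ / (8 * s1) * d :=
      sum_le_sum fun v _ => (hF v.1).trans (mul_le_mul_of_nonneg_right (min_le_right _ _) hd0)
    rw [sum_const, nsmul_eq_mul] at h3
    have h4 : ((univ.filter (fun v : X => bl v = j)).card : ℝ) ≤ s1 := by exact_mod_cast hblc j
    have h5 : ((univ.filter (fun v : X => bl v = j)).card : ℝ) * (κ / (8 * s1) * d) ≤
        s1 * (κ / (8 * s1) * d) := mul_le_mul_of_nonneg_right h4 (by positivity)
    have h6 : (s1 : ℝ) * (κ / (8 * s1) * d) = κ / 8 * d := by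
      field_simp
    linarith
  obtain ⟨γ, hγ, hγ'⟩ : ∃ γ : ι → ℕ, Function.Injective γ ∧ ∀ j, γ j ∈ Pl \ Φ j := by
    obtain ⟨γ, h1, h2⟩ := hall.{0} (ι := ι) (fun j => Pl \ Φ j) (by
      intro j
      have h1 := le_card_sdiff (Φ j) Pl
      have h2 : (Pl.card : ℝ) ≤ ((Pl \ Φ j).card : ℝ) + (Φ j).card := by
        have : Pl.card ≤ (Pl \ Φ j).card + (Φ j).card := by omega
        exact_mod_cast this
      have h3 := hΦ j
      have h4 : (Fintype.card ι : ℝ) ≤ ((Pl \ Φ j).card : ℝ) := by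
        linarith
      exact_mod_cast h4)
    exact ⟨γ, h1, h2⟩
  refine ⟨fun v => if h : v ∉ P.V0 ∧ P.ty (P.pc v) = Ty.N then γ (bl ⟨v, h⟩) else 0, ?_, ?_, ?_⟩
  · intro v hv hv'
    have h : v ∉ P.V0 ∧ P.ty (P.pc v) = Ty.N := ⟨hv, hv'⟩
    simp only [dif_pos h]
    have h1 := mem_sdiff.1 (hγ' (bl ⟨v, h⟩))
    refine ⟨h1.1, fun h2 => h1.2 ?_⟩
    exact mem_biUnion.2 ⟨⟨v, h⟩, mem_filter.2 ⟨mem_univ _, rfl⟩, h2⟩
  · intro v w hv hv' hw hw' hvw h
    have h1 : v ∉ P.V0 ∧ P.ty (P.pc v) = Ty.N := ⟨hv, hv'⟩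
    have h2 : w ∉ P.V0 ∧ P.ty (P.pc w) = Ty.N := ⟨hw, hw'⟩
    simp only [dif_pos h1, dif_pos h2] at h
    have h3 := congrArg Sigma.fst (hγ h)
    exact hc0 ⟨v, h1⟩ ⟨w, h2⟩ (by simp) (by simp) hvw h3
  · intro b
    rcases (univ.filter (fun v => v ∉ P.V0 ∧ P.ty (P.pc v) = Ty.N ∧
      (if h : v ∉ P.V0 ∧ P.ty (P.pc v) = Ty.N then γ (bl ⟨v, h⟩) else 0) = b)).eq_empty_or_nonempty
      with h | ⟨v0, h0⟩
    · rw [h]
      simp
    · rw [mem_filter] at h0
      have hv0 : v0 ∉ P.V0 ∧ P.ty (P.pc v0) = Ty.N := ⟨h0.2.1, h0.2.2.1⟩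
      have h0b := h0.2.2.2
      rw [dif_pos hv0] at h0b
      refine le_trans ?_ (hblc (bl ⟨v0, hv0⟩))
      rw [← card_map (Function.Embedding.subtype _)]
      apply card_le_card
      intro v hv
      rw [mem_filter] at hv
      have hv1 : v ∉ P.V0 ∧ P.ty (P.pc v) = Ty.N := ⟨hv.2.1, hv.2.2.1⟩
      have hvb := hv.2.2.2
      simp only [dif_pos hv1] at hvb
      rw [mem_map]
      exact ⟨⟨v, hv1⟩, mem_filter.2 ⟨mem_univ _, hγ (hvb.trans h0b.symm)⟩, rfl⟩

end Pool.Agent.Work.MP_db9399_da.helper94
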